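import Pool.Agent.X145.LO.Psi

set_option autoImplicit false
set_option linter.unusedSectionVars false
open MeasureTheory ProbabilityTheory Filter Topology
open scoped RealInnerProductSpace

namespace Pool.Agent.X145.LO

variable {E : Type*} [NormedAddCommGroup E] [InnerProductSpace ℝ E] [FiniteDimensional ℝ E]
  [MeasurableSpace E] [BorelSpace E]

/-- the sign of a boolean -/
def sg (b : Bool) : ℝ := if b then 1 else -1

theorem char_eq (y : E) : ((Real.exp (-‖y‖ ^ 2 / 2) : ℝ) : ℂ) =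
    ∫ g, Complex.exp ((⟪g, y⟫ : ℝ) * Complex.I) ∂(stdGaussian E) := by
  have h := charFun_stdGaussian (E := E) y
  rw [charFun_apply] at h
  rw [h]
  push_cast
  rfl

theorem sum_signs {n : ℕ} (b : Fin n → E) (c g : E) :
    ∑ x : Fin n → Bool, Complex.exp ((⟪g, ∑ i, sg (x i) • b i - c⟫ : ℝ) * Complex.I) =
      Complex.exp (((-⟪g, c⟫ : ℝ)) * Complex.I) * ∏ i, (2 * Complex.cos (⟪g, b i⟫ : ℝ)) := by
  have h1 : ∀ i, 2 * Complex.cos (⟪g, b i⟫ : ℝ) =
      ∑ β : Bool, Complex.exp ((sg β * ⟪g, b i⟫ : ℝ) * Complex.I) := by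
    intro i
    rw [Fintype.sum_bool, Complex.two_cos]
    unfold sg
    simp only [if_true, one_mul, Bool.false_eq_true, if_false]
    push_cast
    ring_nf
  rw [Finset.prod_congr rfl fun i _ => h1 i, Finset.prod_univ_sum, Fintype.piFinset_univ,
    Finset.mul_sum]
  refine Finset.sum_congr rfl fun x _ => ?_
  rw [← Complex.exp_sum, ← Complex.exp_add]
  congr 1
  rw [inner_sub_right, inner_sum]
  push_cast
  rw [← Finset.sum_mul, ← add_mul]
  congr 1
  rw [add_comm, sub_eq_add_neg]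
  congr 1
  refine Finset.sum_congr rfl fun i _ => ?_
  rw [inner_smul_right]
  push_cast
  rfl

theorem fourier_bound {n : ℕ} (b : Fin n → E) (c : E) :
    (1 / 2 ^ n : ℝ) * ∑ x : Fin n → Bool, Real.exp (-‖∑ i, sg (x i) • b i - c‖ ^ 2 / 2) ≤
      ∫ g, ∏ i, |Real.cos ⟪g, b i⟫| ∂(stdGaussian E) := by
  have hint : ∀ y : E, Integrable (fun g : E => Complex.exp ((⟪g, y⟫ : ℝ) * Complex.I)) (stdGaussian E) :=
    fun y => int_bdd _ (by fun_prop) 1 fun g => by rw [Complex.norm_exp_ofReal_mul_I]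
  have h1 : (((1 / 2 ^ n : ℝ) * ∑ x : Fin n → Bool, Real.exp (-‖∑ i, sg (x i) • b i - c‖ ^ 2 / 2) : ℝ) : ℂ) =
      ∫ g, Complex.exp (((-⟪g, c⟫ : ℝ)) * Complex.I) * ∏ i, Complex.cos (⟪g, b i⟫ : ℝ) ∂(stdGaussian E) := by
    rw [Complex.ofReal_mul, Complex.ofReal_sum, Finset.sum_congr rfl fun x _ => char_eq _,
      ← integral_finsetSum _ fun x _ => hint _, ← integral_const_mul]
    refine integral_congr_ae (Eventually.of_forall fun g => ?_)
    simp only
    rw [sum_signs, Finset.prod_mul_distrib, Finset.prod_const, Finset.card_univ, Fintype.card_fin]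
    push_cast
    field_simp
  have h2 : ‖∫ g, Complex.exp (((-⟪g, c⟫ : ℝ)) * Complex.I) * ∏ i, Complex.cos (⟪g, b i⟫ : ℝ) ∂(stdGaussian E)‖ ≤
      ∫ g, ∏ i, |Real.cos ⟪g, b i⟫| ∂(stdGaussian E) := by
    refine (norm_integral_le_integral_norm _).trans (le_of_eq ?_)
    refine integral_congr_ae (Eventually.of_forall fun g => ?_)
    simp only
    rw [norm_mul, Complex.norm_exp_ofReal_mul_I, one_mul, norm_prod]
    refine Finset.prod_congr rfl fun i _ => ?_
    rw [← Complex.ofReal_cos, Complex.norm_real, Real.norm_eq_abs]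
  rw [← h1, Complex.norm_real] at h2
  exact (le_abs_self _).trans h2

theorem psi_zero (N : ℕ) (m : ℕ) (t : Fin m → E) :
    ∫ g, ∏ j, (Real.cos ⟪g, t j⟫) ^ N ∂(stdGaussian E) = Psi N m t 0 := by
  have h := Psi_eq N m t (0 : E)
  have h2 : ∀ g : E, Complex.exp ((⟪g, (0 : E)⟫ : ℝ) * Complex.I) * ∏ j, (Complex.cos (⟪g, t j⟫ : ℝ)) ^ N =
      ((∏ j, (Real.cos ⟪g, t j⟫) ^ N : ℝ) : ℂ) := by
    intro g
    rw [inner_zero_right]
    push_cast
    simp
  rw [integral_congr_ae (Eventually.of_forall h2), integral_complex_ofReal] at h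
  exact_mod_cast h.symm

theorem amgm {N : ℕ} (hN : 0 < N) (F : Fin N → ℝ) (hF : ∀ i, 0 ≤ F i) :
    ∏ i, F i ≤ (1 / (N : ℝ)) * ∑ i, F i ^ N := by
  have hN' : (0 : ℝ) < N := by exact_mod_cast hN
  have h := Real.geom_mean_le_arith_mean_weighted (Finset.univ : Finset (Fin N))
    (fun _ => 1 / (N : ℝ)) (fun i => F i ^ N) (fun i _ => by positivity)
    (by rw [Finset.sum_const, Finset.card_univ, Fintype.card_fin, nsmul_eq_mul]; field_simp)
    (fun i _ => pow_nonneg (hF i) N)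
  rw [← Finset.mul_sum] at h
  refine le_trans (le_of_eq ?_) h
  refine Finset.prod_congr rfl fun i _ => ?_
  rw [← Real.rpow_natCast, ← Real.rpow_mul (hF i), mul_one_div_cancel hN'.ne', Real.rpow_one]

theorem holder_bound {n m N : ℕ} (hN : 0 < N) (hev : Even N) (b : Fin n → E)
    (T : Fin N → Fin m → Fin n) (hT : Function.Injective (fun p : Fin N × Fin m => T p.1 p.2))
    (θ : ℝ) (hθ : ∀ τ, Psi N m (fun j => b (T τ j)) 0 ≤ θ) :
    ∫ g, ∏ i, |Real.cos ⟪g, b i⟫| ∂(stdGaussian E) ≤ θ := by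
  have hN' : (0 : ℝ) < N := by exact_mod_cast hN
  have h1 : ∀ g : E, ∏ i, |Real.cos ⟪g, b i⟫| ≤
      (1 / (N : ℝ)) * ∑ τ, ∏ j, (Real.cos ⟪g, b (T τ j)⟫) ^ N := by
    intro g
    have h2 : ∏ i, |Real.cos ⟪g, b i⟫| ≤ ∏ τ : Fin N, ∏ j : Fin m, |Real.cos ⟪g, b (T τ j)⟫| := by
      rw [← Finset.prod_product' Finset.univ Finset.univ (fun (τ : Fin N) (j : Fin m) => |Real.cos ⟪g, b (T τ j)⟫|),
        Finset.univ_product_univ,
        ← Finset.prod_image (f := fun i => |Real.cos ⟪g, b i⟫|)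
          (g := fun p : Fin N × Fin m => T p.1 p.2) (fun x _ y _ h => hT h)]
      exact Finset.prod_le_prod_of_subset_of_le_one (Finset.subset_univ _)
        (fun i _ => abs_nonneg _) (fun i _ _ => Real.abs_cos_le_one _)
    refine h2.trans ((amgm hN _ fun τ => Finset.prod_nonneg fun j _ => abs_nonneg _).trans (le_of_eq ?_))
    congr 1
    refine Finset.sum_congr rfl fun τ _ => ?_
    rw [← Finset.prod_pow]
    refine Finset.prod_congr rfl fun j _ => ?_
    rw [hev.pow_abs]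
  have hi : ∀ τ : Fin N, Integrable (fun g : E => ∏ j, (Real.cos ⟪g, b (T τ j)⟫) ^ N) (stdGaussian E) := by
    intro τ
    refine Integrable.of_bound (by fun_prop) 1 (Eventually.of_forall fun g => ?_)
    rw [norm_prod]
    refine Finset.prod_le_one (fun j _ => norm_nonneg _) fun j _ => ?_
    rw [norm_pow]
    exact pow_le_one₀ (norm_nonneg _) (Real.abs_cos_le_one _)
  have hi2 : Integrable (fun g : E => ∏ i, |Real.cos ⟪g, b i⟫|) (stdGaussian E) := by
    refine Integrable.of_bound (by fun_prop) 1 (Eventually.of_forall fun g => ?_)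
    rw [norm_prod]
    refine Finset.prod_le_one (fun j _ => norm_nonneg _) fun j _ => ?_
    rw [Real.norm_eq_abs, abs_abs]
    exact Real.abs_cos_le_one _
  have h3 := integral_mono hi2 ((integrable_finsetSum Finset.univ fun τ _ => hi τ).const_mul (1 / (N : ℝ)))
    (fun g => by simpa using h1 g)
  refine h3.trans ?_
  rw [integral_const_mul, integral_finsetSum _ fun τ _ => hi τ]
  have h4 : ∑ τ : Fin N, ∫ g, ∏ j, (Real.cos ⟪g, b (T τ j)⟫) ^ N ∂(stdGaussian E) ≤ ∑ _τ : Fin N, θ := by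
    refine Finset.sum_le_sum fun τ _ => ?_
    rw [psi_zero]
    exact hθ τ
  rw [Finset.sum_const, Finset.card_univ, Fintype.card_fin, nsmul_eq_mul] at h4
  calc _ ≤ 1 / (N : ℝ) * (N * θ) := mul_le_mul_of_nonneg_left h4 (by positivity)
    _ = θ := by field_simp

end Pool.Agent.X145.LO
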