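import Pool.Agent.X145.LO.Psi

set_option autoImplicit false
open MeasureTheory ProbabilityTheory Filter Topology

namespace Pool.Agent.X145.LO

theorem central_sq (M : ℕ) : (M.centralBinom : ℝ) ^ 2 * (2 * M + 1) ≤ 16 ^ M := by
  induction M with
  | zero => simp
  | succ M ih =>
    have h1 : ((M : ℝ) + 1) * ((M + 1).centralBinom : ℝ) = 2 * (2 * M + 1) * (M.centralBinom : ℝ) := by
      exact_mod_cast Nat.succ_mul_centralBinom_succ M
    have hM : (0 : ℝ) < (M : ℝ) + 1 := by positivity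
    have h2 : ((M + 1).centralBinom : ℝ) = 2 * (2 * M + 1) * (M.centralBinom : ℝ) / ((M : ℝ) + 1) := by
      rw [eq_div_iff hM.ne', ← h1]; ring
    rw [h2, pow_succ (16 : ℝ) M]
    push_cast
    rw [div_pow, div_mul_eq_mul_div, div_le_iff₀ (by positivity)]
    have h3 : (2 * (2 * (M : ℝ) + 1) * (M.centralBinom : ℝ)) ^ 2 * (2 * ((M : ℝ) + 1) + 1) =
        ((M.centralBinom : ℝ) ^ 2 * (2 * M + 1)) * (4 * (2 * M + 1) * (2 * M + 3)) := by ring
    rw [h3]
    have h4 : (4 * (2 * (M : ℝ) + 1) * (2 * M + 3)) ≤ 16 * ((M : ℝ) + 1) ^ 2 := by nlinarith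
    calc _ ≤ (16 : ℝ) ^ M * (16 * ((M : ℝ) + 1) ^ 2) :=
          mul_le_mul ih h4 (by positivity) (by positivity)
      _ = _ := by ring

theorem pp_le (M k : ℕ) : pp (2 * M) k ≤ 1 / Real.sqrt (2 * M + 1) := by
  have h1 : ((2 * M).choose k : ℝ) ≤ (M.centralBinom : ℝ) := by
    exact_mod_cast Nat.choose_le_centralBinom k M
  have hs : 0 < Real.sqrt (2 * (M : ℝ) + 1) := Real.sqrt_pos.2 (by positivity)
  unfold pp
  rw [div_le_div_iff₀ (by positivity) hs, one_mul]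
  have h2 : (M.centralBinom : ℝ) * Real.sqrt (2 * M + 1) ≤ 2 ^ (2 * M) := by
    refine abs_le_of_sq_le_sq' ?_ (by positivity) |>.2
    rw [mul_pow, Real.sq_sqrt (by positivity)]
    refine (central_sq M).trans (le_of_eq ?_)
    rw [← pow_mul, mul_comm (2 * M) 2, pow_mul, pow_mul]
    norm_num
  exact (mul_le_mul_of_nonneg_right h1 hs.le).trans h2

/-- increasing comparison function -/
noncomputable def HH (x : ℝ) : ℝ := x / (1 + |x|)

theorem HH_abs (x : ℝ) : |HH x| ≤ 1 := by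
  unfold HH
  rw [abs_div, abs_of_pos (by positivity : 0 < 1 + |x|), div_le_one (by positivity)]
  linarith

theorem HH_step (ρ : ℝ) (hρ : 0 < ρ) (x : ℝ) :
    1 / (1 + |x|) ^ 2 ≤ (1 + 1 / ρ) * (HH (x + ρ) - HH (x - ρ)) := by
  have key : ∀ y : ℝ, 0 ≤ y → 1 / (1 + |y|) ^ 2 ≤ (1 + 1 / ρ) * (HH (y + ρ) - HH y) := by
    intro y hy
    unfold HH
    rw [abs_of_nonneg hy, abs_of_nonneg (by linarith : 0 ≤ y + ρ)]
    have e : (y + ρ) / (1 + (y + ρ)) - y / (1 + y) = ρ / ((1 + (y + ρ)) * (1 + y)) := by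
      field_simp
      ring
    rw [e]
    have e2 : (1 + 1 / ρ) * (ρ / ((1 + (y + ρ)) * (1 + y))) = (1 + ρ) / ((1 + (y + ρ)) * (1 + y)) := by
      field_simp
      ring
    rw [e2, div_le_div_iff₀ (by positivity) (by positivity)]
    nlinarith [mul_nonneg hy hρ.le, mul_nonneg hy hy, mul_nonneg (mul_nonneg hy hy) hρ.le]
  have hodd : ∀ y, HH (-y) = -HH y := fun y => by unfold HH; rw [abs_neg]; ring
  have hmono : ∀ y, 0 ≤ HH (y + ρ) - HH y := by
    intro y
    rcases le_total 0 y with h | h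
    · have h1 := key y h
      have h2 : 0 < 1 / (1 + |y|) ^ 2 := by positivity
      have h3 : 0 < 1 + 1 / ρ := by positivity
      by_contra hc
      push Not at hc
      nlinarith
    · rcases le_total (y + ρ) 0 with h' | h'
      · have h1 := key (-(y + ρ)) (by linarith)
        rw [show -(y + ρ) + ρ = -y by ring, hodd, hodd] at h1
        have h2 : 0 < 1 / (1 + |(-(y + ρ))|) ^ 2 := by positivity
        have h3 : 0 < 1 + 1 / ρ := by positivity
        by_contra hc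
        push Not at hc
        nlinarith
      · have h1 : HH y ≤ 0 := by unfold HH; exact div_nonpos_of_nonpos_of_nonneg h (by positivity)
        have h2 : 0 ≤ HH (y + ρ) := by unfold HH; exact div_nonneg h' (by positivity)
        linarith
  have hpos : 0 < 1 + 1 / ρ := by positivity
  rcases le_total 0 x with h | h
  · refine (key x h).trans (mul_le_mul_of_nonneg_left ?_ hpos.le)
    have := hmono (x - ρ)
    rw [show x - ρ + ρ = x by ring] at this
    linarith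
  · have h1 := key (-x) (by linarith)
    rw [abs_neg, show -x + ρ = -(x - ρ) by ring, hodd, hodd] at h1
    refine h1.trans (mul_le_mul_of_nonneg_left ?_ hpos.le)
    have := hmono x
    linarith

theorem sum_lattice (ρ : ℝ) (hρ : 0 < ρ) (c : ℝ) (N : ℕ) :
    ∑ k ∈ Finset.range N, 1 / (1 + |c + k * ρ|) ^ 2 ≤ 4 * (1 + 1 / ρ) := by
  have hpos : 0 < 1 + 1 / ρ := by positivity
  have h1 : ∀ k ∈ Finset.range N, 1 / (1 + |c + k * ρ|) ^ 2 ≤
      (1 + 1 / ρ) * ((HH (c + ((k + 1 : ℕ) : ℝ) * ρ) + HH (c + ((k + 1 : ℕ) : ℝ) * ρ - ρ)) -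
        (HH (c + (k : ℝ) * ρ) + HH (c + (k : ℝ) * ρ - ρ))) := by
    intro k _
    refine (HH_step ρ hρ _).trans (le_of_eq ?_)
    push_cast
    rw [show c + ((k : ℝ) + 1) * ρ = c + k * ρ + ρ by ring, show c + (k : ℝ) * ρ + ρ - ρ = c + k * ρ by ring]
    ring
  refine (Finset.sum_le_sum h1).trans ?_
  rw [← Finset.mul_sum, Finset.sum_range_sub (fun k : ℕ => HH (c + (k : ℝ) * ρ) + HH (c + (k : ℝ) * ρ - ρ))]
  rw [mul_comm 4]
  refine mul_le_mul_of_nonneg_left ?_ hpos.le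
  have a1 := abs_le.1 (HH_abs (c + (N : ℝ) * ρ))
  have a2 := abs_le.1 (HH_abs (c + (N : ℝ) * ρ - ρ))
  have a3 := abs_le.1 (HH_abs (c + ((0 : ℕ) : ℝ) * ρ))
  have a4 := abs_le.1 (HH_abs (c + ((0 : ℕ) : ℝ) * ρ - ρ))
  linarith [a1.2, a2.2, a3.1, a4.1]

theorem gauss_le (x : ℝ) : Real.exp (-x ^ 2 / 2) ≤ 4 * (1 / (1 + |x|) ^ 2) := by
  have h1 := Real.add_one_le_exp (x ^ 2 / 2)
  have h2 : Real.exp (-x ^ 2 / 2) = (Real.exp (x ^ 2 / 2))⁻¹ := by
    rw [← Real.exp_neg]; congr 1; ring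
  rw [h2, mul_one_div, inv_le_comm₀ (Real.exp_pos _) (by positivity), inv_div]
  refine le_trans ?_ h1
  rw [div_le_iff₀ (by norm_num)]
  nlinarith [sq_abs x, sq_nonneg (|x| - 1)]

theorem theta_bound (M : ℕ) (c R : ℝ) (hR : 0 < R) :
    ∑ k ∈ Finset.range (2 * M + 1), pp (2 * M) k * Real.exp (-(c + sv (2 * M) k * R) ^ 2 / 2) ≤
      16 * (1 + 1 / (2 * R)) / Real.sqrt (2 * M + 1) := by
  have hs : 0 < Real.sqrt (2 * (M : ℝ) + 1) := Real.sqrt_pos.2 (by positivity)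
  have h1 : ∀ k ∈ Finset.range (2 * M + 1), pp (2 * M) k * Real.exp (-(c + sv (2 * M) k * R) ^ 2 / 2) ≤
      (4 / Real.sqrt (2 * M + 1)) * (1 / (1 + |(-(c + (2 * M : ℝ) * R)) + k * (2 * R)|) ^ 2) := by
    intro k _
    have e : |(-(c + (2 * M : ℝ) * R)) + k * (2 * R)| = |c + sv (2 * M) k * R| := by
      rw [← abs_neg]
      congr 1
      unfold sv
      push_cast
      ring
    rw [e]
    calc _ ≤ 1 / Real.sqrt (2 * M + 1) * (4 * (1 / (1 + |c + sv (2 * M) k * R|) ^ 2)) :=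
          mul_le_mul (pp_le M k) (gauss_le _) (Real.exp_pos _).le (by positivity)
      _ = _ := by ring
  refine (Finset.sum_le_sum h1).trans ?_
  rw [← Finset.mul_sum]
  have h2 := sum_lattice (2 * R) (by positivity) (-(c + (2 * M : ℝ) * R)) (2 * M + 1)
  calc _ ≤ 4 / Real.sqrt (2 * M + 1) * (4 * (1 + 1 / (2 * R))) :=
        mul_le_mul_of_nonneg_left h2 (by positivity)
    _ = _ := by ring

end Pool.Agent.X145.LO
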