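import Mathlib

set_option autoImplicit false
set_option linter.unusedSectionVars false
open MeasureTheory ProbabilityTheory Filter Topology
open scoped RealInnerProductSpace

namespace Pool.Agent.X145.LO

variable {E : Type*} [NormedAddCommGroup E] [InnerProductSpace ℝ E] [FiniteDimensional ℝ E]
  [MeasurableSpace E] [BorelSpace E]

/-- binomial weights -/
noncomputable def pp (N k : ℕ) : ℝ := (N.choose k : ℝ) / 2 ^ N

/-- values of the sum of `N` signs -/
noncomputable def sv (N k : ℕ) : ℝ := (N : ℝ) - 2 * k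

theorem pp_nonneg (N k : ℕ) : 0 ≤ pp N k := by unfold pp; positivity

/-- the iterated average -/
noncomputable def Psi (N : ℕ) : (m : ℕ) → (Fin m → E) → E → ℝ
  | 0, _, c => Real.exp (-‖c‖ ^ 2 / 2)
  | m + 1, t, c => ∑ k ∈ Finset.range (N + 1),
      pp N k * Psi N m (fun j => t j.castSucc) (c + sv N k • t (Fin.last m))

theorem cos_pow_eq (N : ℕ) (x : ℝ) : (Complex.cos x) ^ N =
    ∑ k ∈ Finset.range (N + 1), (pp N k : ℂ) * Complex.exp ((sv N k * x : ℝ) * Complex.I) := by
  rw [Complex.cos, div_pow, add_comm, add_pow, Finset.sum_div]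
  refine Finset.sum_congr rfl fun k hk => ?_
  have hk' : k ≤ N := Nat.lt_succ_iff.1 (Finset.mem_range.1 hk)
  rw [← Complex.exp_nat_mul, ← Complex.exp_nat_mul, ← Complex.exp_add]
  unfold pp sv
  push_cast [Nat.cast_sub hk']
  have e : (k : ℂ) * (-(x : ℂ) * Complex.I) + ((N : ℂ) - k) * ((x : ℂ) * Complex.I) =
      ((N : ℂ) - 2 * k) * x * Complex.I := by ring
  rw [e]
  ring

theorem int_bdd (f : E → ℂ) (hf : Continuous f) (C : ℝ) (h : ∀ g, ‖f g‖ ≤ C) :
    Integrable f (stdGaussian E) :=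
  Integrable.of_bound hf.aestronglyMeasurable C (Eventually.of_forall h)

theorem norm_integrand (N m : ℕ) (t : Fin m → E) (c g : E) :
    ‖Complex.exp ((⟪g, c⟫ : ℝ) * Complex.I) * ∏ j, (Complex.cos (⟪g, t j⟫ : ℝ)) ^ N‖ ≤ 1 := by
  rw [norm_mul, Complex.norm_exp_ofReal_mul_I, one_mul, Finset.prod_congr rfl fun j _ => rfl, norm_prod]
  refine Finset.prod_le_one (fun j _ => norm_nonneg _) fun j _ => ?_
  rw [norm_pow, ← Complex.ofReal_cos, Complex.norm_real]
  exact pow_le_one₀ (norm_nonneg _) (Real.abs_cos_le_one _)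

theorem cont_integrand (N m : ℕ) (t : Fin m → E) (c : E) :
    Continuous fun g : E => Complex.exp ((⟪g, c⟫ : ℝ) * Complex.I) * ∏ j, (Complex.cos (⟪g, t j⟫ : ℝ)) ^ N := by
  fun_prop

theorem Psi_eq (N : ℕ) : ∀ (m : ℕ) (t : Fin m → E) (c : E), (Psi N m t c : ℂ) =
    ∫ g, Complex.exp ((⟪g, c⟫ : ℝ) * Complex.I) * ∏ j, (Complex.cos (⟪g, t j⟫ : ℝ)) ^ N ∂(stdGaussian E) := by
  intro m
  induction m with
  | zero =>
    intro t c
    have h := charFun_stdGaussian (E := E) c
    rw [charFun_apply] at h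
    simp only [Finset.univ_eq_empty, Finset.prod_empty, mul_one, Psi]
    rw [h]
    push_cast
    rfl
  | succ m ih =>
    intro t c
    simp only [Psi]
    push_cast
    rw [Finset.sum_congr rfl fun k _ => by rw [ih]]
    have h1 : ∀ g : E, Complex.exp ((⟪g, c⟫ : ℝ) * Complex.I) * ∏ j, (Complex.cos (⟪g, t j⟫ : ℝ)) ^ N =
        ∑ k ∈ Finset.range (N + 1), (pp N k : ℂ) *
          (Complex.exp ((⟪g, c + sv N k • t (Fin.last m)⟫ : ℝ) * Complex.I) *
            ∏ j : Fin m, (Complex.cos (⟪g, t j.castSucc⟫ : ℝ)) ^ N) := by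
      intro g
      rw [Fin.prod_univ_castSucc, cos_pow_eq N ⟪g, t (Fin.last m)⟫, Finset.mul_sum, Finset.mul_sum]
      refine Finset.sum_congr rfl fun k _ => ?_
      rw [inner_add_right, inner_smul_right]
      push_cast
      rw [add_mul, Complex.exp_add]
      ring
    rw [integral_congr_ae (Eventually.of_forall h1), integral_finsetSum]
    · refine Finset.sum_congr rfl fun k _ => ?_
      rw [integral_const_mul]
    · intro k _
      exact (int_bdd _ (cont_integrand N m (fun j => t j.castSucc) _) 1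
        (norm_integrand N m (fun j => t j.castSucc) _)).const_mul _

theorem Psi_nonneg (N : ℕ) : ∀ (m : ℕ) (t : Fin m → E) (c : E), 0 ≤ Psi N m t c := by
  intro m
  induction m with
  | zero => intro t c; exact (Real.exp_pos _).le
  | succ m ih =>
    intro t c
    exact Finset.sum_nonneg fun k _ => mul_nonneg (pp_nonneg N k) (ih _ _)

theorem Psi_split (N : ℕ) (u : E) (hu : ‖u‖ = 1) : ∀ (m : ℕ) (t : Fin m → E) (c : E),
    (∀ j, ⟪t j, u⟫ = 0) →
    Psi N m t c = Real.exp (-⟪c, u⟫ ^ 2 / 2) * Psi N m t (c - ⟪c, u⟫ • u) := by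
  intro m
  induction m with
  | zero =>
    intro t c _
    simp only [Psi]
    rw [← Real.exp_add]
    congr 1
    have h1 : ‖c - ⟪c, u⟫ • u‖ ^ 2 = ‖c‖ ^ 2 - ⟪c, u⟫ ^ 2 := by
      rw [norm_sub_sq_real, inner_smul_right, norm_smul, hu, Real.norm_eq_abs, mul_one, sq_abs]
      ring
    rw [h1]
    ring
  | succ m ih =>
    intro t c ht
    simp only [Psi]
    rw [Finset.mul_sum]
    refine Finset.sum_congr rfl fun k _ => ?_
    rw [ih (fun j => t j.castSucc) (c + sv N k • t (Fin.last m)) fun j => ht _]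
    have h1 : ⟪c + sv N k • t (Fin.last m), u⟫ = ⟪c, u⟫ := by
      rw [inner_add_left, inner_smul_left, ht (Fin.last m)]
      simp
    rw [h1]
    have h2 : c + sv N k • t (Fin.last m) - ⟪c, u⟫ • u = c - ⟪c, u⟫ • u + sv N k • t (Fin.last m) := by
      abel
    rw [h2]
    ring

/-- every vector has a component at least `δ` orthogonal to the span of the previous ones -/
def Good (δ : ℝ) : (m : ℕ) → (Fin m → E) → Prop
  | 0, _ => True
  | m + 1, t => Good δ m (fun j => t j.castSucc) ∧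
      ∃ u : E, ‖u‖ = 1 ∧ (∀ j : Fin m, ⟪t j.castSucc, u⟫ = 0) ∧ δ ≤ ⟪t (Fin.last m), u⟫

theorem Psi_le (N : ℕ) (δ θ : ℝ) (hθ0 : 0 ≤ θ)
    (hθ : ∀ c R : ℝ, δ ≤ R → ∑ k ∈ Finset.range (N + 1), pp N k * Real.exp (-(c + sv N k * R) ^ 2 / 2) ≤ θ) :
    ∀ (m : ℕ) (t : Fin m → E) (c : E), Good δ m t → Psi N m t c ≤ θ ^ m := by
  intro m
  induction m with
  | zero =>
    intro t c _
    simp only [Psi, pow_zero]
    rw [Real.exp_le_one_iff]
    nlinarith [sq_nonneg ‖c‖]
  | succ m ih =>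
    intro t c ⟨hg, u, hu, hut, hul⟩
    simp only [Psi]
    have h1 : ∀ k ∈ Finset.range (N + 1),
        pp N k * Psi N m (fun j => t j.castSucc) (c + sv N k • t (Fin.last m)) ≤
        (pp N k * Real.exp (-(⟪c, u⟫ + sv N k * ⟪t (Fin.last m), u⟫) ^ 2 / 2)) * θ ^ m := by
      intro k _
      rw [mul_assoc]
      refine mul_le_mul_of_nonneg_left ?_ (pp_nonneg N k)
      rw [Psi_split N u hu m _ _ hut]
      have h2 : ⟪c + sv N k • t (Fin.last m), u⟫ = ⟪c, u⟫ + sv N k * ⟪t (Fin.last m), u⟫ := by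
        rw [inner_add_left, inner_smul_left]
        simp
      rw [h2]
      exact mul_le_mul_of_nonneg_left (ih _ _ hg) (Real.exp_pos _).le
    refine (Finset.sum_le_sum h1).trans ?_
    rw [← Finset.sum_mul, pow_succ, mul_comm (θ ^ m)]
    exact mul_le_mul_of_nonneg_right (hθ _ _ hul) (pow_nonneg hθ0 m)

end Pool.Agent.X145.LO
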