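import Pool.Agent.X145.LO.Psi

set_option autoImplicit false
set_option linter.unusedSectionVars false
open MeasureTheory ProbabilityTheory Filter Topology
open scoped RealInnerProductSpace

namespace Pool.Agent.X145.LO

variable {E : Type*} [NormedAddCommGroup E] [InnerProductSpace ℝ E] [FiniteDimensional ℝ E]
  [MeasurableSpace E] [BorelSpace E]

theorem good_smul (δ lam : ℝ) (hl : 0 ≤ lam) : ∀ (m : ℕ) (t : Fin m → E), Good δ m t →
    Good (lam * δ) m (fun j => lam • t j) := by
  intro m
  induction m with
  | zero => intro t _; trivial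
  | succ m ih =>
    intro t ⟨h, u, hu, h1, h2⟩
    refine ⟨ih _ h, u, hu, fun j => ?_, ?_⟩
    · rw [inner_smul_left, h1 j, mul_zero]
    · rw [inner_smul_left]
      exact mul_le_mul_of_nonneg_left h2 hl

theorem dir_exists (δ : ℝ) (hδ : 0 ≤ δ) (S : Submodule ℝ E) (v : E)
    (h : δ < Metric.infDist v (S : Set E)) :
    ∃ u : E, ‖u‖ = 1 ∧ (∀ s ∈ S, ⟪s, u⟫ = 0) ∧ δ ≤ ⟪v, u⟫ := by
  set w := v - S.starProjection v with hw
  have hmem : S.starProjection v ∈ S := Submodule.starProjection_apply_mem S v
  have horth : ∀ s ∈ S, ⟪s, w⟫ = 0 := by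
    intro s hs
    have := Submodule.sub_starProjection_mem_orthogonal (K := S) v
    exact (Submodule.mem_orthogonal S _).1 this s hs
  have hn : δ < ‖w‖ := by
    refine lt_of_lt_of_le h ?_
    have := Metric.infDist_le_dist_of_mem (x := v) (s := (S : Set E)) hmem
    rwa [dist_eq_norm] at this
  have hw0 : 0 < ‖w‖ := lt_of_le_of_lt hδ hn
  refine ⟨(‖w‖)⁻¹ • w, ?_, fun s hs => ?_, ?_⟩
  · rw [norm_smul, norm_inv, norm_norm, inv_mul_cancel₀ hw0.ne']
  · rw [inner_smul_right, horth s hs, mul_zero]
  · rw [inner_smul_right]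
    have h1 : ⟪v, w⟫ = ‖w‖ ^ 2 := by
      have h2 : v = w + S.starProjection v := by rw [hw]; abel
      conv_lhs => rw [h2]
      rw [inner_add_left, horth _ hmem, real_inner_self_eq_norm_sq, add_zero]
    rw [h1]
    have h3 : (‖w‖)⁻¹ * ‖w‖ ^ 2 = ‖w‖ := by field_simp
    rw [h3]
    exact hn.le

/-- picking one tuple outside `U` -/
theorem pick {n : ℕ} (a : Fin n → E) (δ : ℝ) (hδ : 0 ≤ δ) (K : ℕ) (X : ℝ)
    (hbad : ∀ S : Submodule ℝ E, Module.finrank ℝ S ≤ K →
      X < ((Finset.univ.filter fun i => δ < Metric.infDist (a i) (S : Set E)).card : ℝ))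
    (U : Finset (Fin n)) (hU : (U.card : ℝ) ≤ X) :
    ∀ m : ℕ, m ≤ K + 1 → ∃ t : Fin m → Fin n, Function.Injective t ∧ (∀ j, t j ∉ U) ∧
      Good δ m (fun j => a (t j)) := by
  intro m
  induction m with
  | zero => intro _; exact ⟨Fin.elim0, fun x => x.elim0, fun x => x.elim0, trivial⟩
  | succ m ih =>
    intro hm
    obtain ⟨t, ht1, ht2, ht3⟩ := ih (by omega)
    set S := Submodule.span ℝ (Set.range fun j => a (t j)) with hS
    have hfr : Module.finrank ℝ S ≤ K := by
      have h1 := finrank_range_le_card (R := ℝ) (fun j => a (t j))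
      rw [Fintype.card_fin] at h1
      have : Module.finrank ℝ S ≤ m := h1
      omega
    have hb := hbad S hfr
    obtain ⟨i, hi1, hi2⟩ : ∃ i, i ∈ (Finset.univ.filter fun i => δ < Metric.infDist (a i) (S : Set E)) ∧
        i ∉ U := by
      by_contra hcon
      push Not at hcon
      have h2 := Finset.card_le_card (show (Finset.univ.filter fun i =>
        δ < Metric.infDist (a i) (S : Set E)) ⊆ U from hcon)
      have h3 : ((Finset.univ.filter fun i => δ < Metric.infDist (a i) (S : Set E)).card : ℝ) ≤ U.card := by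
        exact_mod_cast h2
      linarith
    rw [Finset.mem_filter] at hi1
    have hinS : ∀ j, a (t j) ∈ S := fun j => Submodule.subset_span ⟨j, rfl⟩
    have hne : ∀ j, t j ≠ i := by
      intro j hj
      have h2 := hi1.2
      rw [← hj, Metric.infDist_zero_of_mem (show a (t j) ∈ (S : Set E) from hinS j)] at h2
      linarith
    refine ⟨Fin.snoc t i, ?_, ?_, ?_⟩
    · intro x y hxy
      induction x using Fin.lastCases with
      | last =>
        induction y using Fin.lastCases with
        | last => rfl
        | cast y =>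
          rw [Fin.snoc_last, Fin.snoc_castSucc] at hxy
          exact absurd hxy.symm (hne y)
      | cast x =>
        induction y using Fin.lastCases with
        | last =>
          rw [Fin.snoc_last, Fin.snoc_castSucc] at hxy
          exact absurd hxy (hne x)
        | cast y =>
          rw [Fin.snoc_castSucc, Fin.snoc_castSucc] at hxy
          rw [ht1 hxy]
    · intro j
      induction j using Fin.lastCases with
      | last => rw [Fin.snoc_last]; exact hi2
      | cast j => rw [Fin.snoc_castSucc]; exact ht2 j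
    · refine ⟨?_, ?_⟩
      · simp only [Fin.snoc_castSucc]
        exact ht3
      · obtain ⟨u, hu1, hu2, hu3⟩ := dir_exists δ hδ S (a i) hi1.2
        refine ⟨u, hu1, fun j => ?_, ?_⟩
        · simp only [Fin.snoc_castSucc]
          exact hu2 _ (hinS j)
        · simp only [Fin.snoc_last]
          exact hu3

theorem tuples {n : ℕ} (a : Fin n → E) (δ : ℝ) (hδ : 0 ≤ δ) (K : ℕ) (X : ℝ)
    (hbad : ∀ S : Submodule ℝ E, Module.finrank ℝ S ≤ K →
      X < ((Finset.univ.filter fun i => δ < Metric.infDist (a i) (S : Set E)).card : ℝ))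
    (m : ℕ) (hm : m ≤ K + 1) :
    ∀ N : ℕ, (N : ℝ) * m ≤ X → ∃ T : Fin N → Fin m → Fin n,
      Function.Injective (fun p : Fin N × Fin m => T p.1 p.2) ∧
      ∀ τ, Good δ m (fun j => a (T τ j)) := by
  intro N
  induction N with
  | zero => intro _; exact ⟨Fin.elim0, fun x => x.1.elim0, fun x => x.elim0⟩
  | succ N ih =>
    intro hN
    have hm0 : (0 : ℝ) ≤ m := by positivity
    push_cast at hN
    obtain ⟨T, hT1, hT2⟩ := ih (by nlinarith)
    set U : Finset (Fin n) := Finset.univ.image (fun p : Fin N × Fin m => T p.1 p.2) with hU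
    have hUc : (U.card : ℝ) ≤ X := by
      have h1 : U.card ≤ N * m := by
        refine Finset.card_image_le.trans ?_
        rw [Finset.card_univ, Fintype.card_prod, Fintype.card_fin, Fintype.card_fin]
      have h2 : (U.card : ℝ) ≤ (N : ℝ) * m := by exact_mod_cast h1
      nlinarith
    obtain ⟨t, ht1, ht2, ht3⟩ := pick a δ hδ K X hbad U hUc m hm
    have hdis : ∀ τ j j', T τ j ≠ t j' := by
      intro τ j j' h
      exact ht2 j' (by rw [← h]; exact Finset.mem_image_of_mem _ (Finset.mem_univ (τ, j)))
    refine ⟨Fin.snoc (α := fun _ => Fin m → Fin n) T t, ?_, ?_⟩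
    · rintro ⟨x, x'⟩ ⟨y, y'⟩ hxy
      simp only at hxy
      induction x using Fin.lastCases with
      | last =>
        induction y using Fin.lastCases with
        | last =>
          rw [Fin.snoc_last] at hxy
          rw [ht1 hxy]
        | cast y =>
          rw [Fin.snoc_last, Fin.snoc_castSucc] at hxy
          exact absurd hxy.symm (hdis y y' x')
      | cast x =>
        induction y using Fin.lastCases with
        | last =>
          rw [Fin.snoc_last, Fin.snoc_castSucc] at hxy
          exact absurd hxy (hdis x x' y')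
        | cast y =>
          rw [Fin.snoc_castSucc, Fin.snoc_castSucc] at hxy
          have := hT1 (a₁ := (x, x')) (a₂ := (y, y')) hxy
          rw [Prod.mk.injEq] at this
          rw [this.1, this.2]
    · intro τ
      induction τ using Fin.lastCases with
      | last => rw [Fin.snoc_last]; exact ht3
      | cast τ => rw [Fin.snoc_castSucc]; exact hT2 τ

end Pool.Agent.X145.LO
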